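import Mathlib
import Pool.Agent.Q28.Osc

/-!
Oscillating growth of finitely presented semigroups: the negated form of Q1 holds, in a strong
form. There is one function `f₂` with `n² ⪯ f₂ ⪯ 2^n`, of subexponential growth (so `f₂ ≁ 2^n`),
such that the growth function of every finitely presented semigroup is eventually bounded by
`f₂`, or is exponential and therefore eventually above every subexponential function `f₁`.
-/

namespace Pool.Agent.Results.MP_dd6e79_al.NoUniversalOscillation

open Filter

/-- A semigroup is finitely presented if it is isomorphic to the quotient of a free semigroup on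
finitely many generators by the congruence generated by finitely many pairs of words. -/
def FinitelyPresented (S : Type*) [Semigroup S] : Prop :=
  ∃ (k : ℕ) (R : Finset (FreeSemigroup (Fin k) × FreeSemigroup (Fin k))),
    Nonempty (S ≃* (conGen (fun u v => (u, v) ∈ R)).Quotient)

/-- The growth function with respect to the finite set `X`: the number of elements of `S` which
are represented by nonempty words of length at most `n` over `X`. -/
noncomputable def growth {S : Type*} [Semigroup S] (X : Finset S) (n : ℕ) : ℕ :=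
  Set.ncard {s : S | ∃ w : FreeSemigroup X, w.length ≤ n ∧
    FreeSemigroup.lift (fun x : X => (x : S)) w = s}

/-- `f ⪯ g`: there is a constant `C ≥ 1` with `f n ≤ C * g (C * n)` for all `n`. -/
def Dominated (f g : ℕ → ℕ) : Prop := ∃ C : ℕ, 1 ≤ C ∧ ∀ n, f n ≤ C * g (C * n)

/-- `f ∼ g`: `f ⪯ g` and `g ⪯ f`. -/
def Equivalent (f g : ℕ → ℕ) : Prop := Dominated f g ∧ Dominated g f

/-- `f` is subexponential: for every real `c > 1`, `f n ≤ c ^ n` for all large `n`. -/
def Subexponential (f : ℕ → ℕ) : Prop := ∀ c : ℝ, 1 < c → ∀ᶠ n in atTop, (f n : ℝ) ≤ c ^ n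

section Growth

variable {S : Type*} [Semigroup S] (X : Finset S)

/-- the ball of radius `n` -/
def ball (n : ℕ) : Set S :=
  {s : S | ∃ w : FreeSemigroup X, w.length ≤ n ∧ FreeSemigroup.lift (fun x : X => (x : S)) w = s}

theorem growth_eq (n : ℕ) : growth X n = (ball X n).ncard := rfl

theorem finite_words (α : Type*) [Finite α] (n : ℕ) :
    {w : FreeSemigroup α | w.length ≤ n}.Finite := by
  have h : (fun w : FreeSemigroup α => (w.head, w.tail)) '' {w : FreeSemigroup α | w.length ≤ n} ⊆
      Set.univ ×ˢ {l : List α | l.length ≤ n} := by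
    rintro _ ⟨w, hw, rfl⟩
    refine ⟨Set.mem_univ _, ?_⟩
    simp only [Set.mem_ofPred_eq, FreeSemigroup.length] at hw ⊢
    omega
  refine Set.Finite.of_finite_image ((Set.finite_univ.prod (List.finite_length_le α n)).subset h) ?_
  intro a _ b _ hab
  simp only [Prod.mk.injEq] at hab
  exact FreeSemigroup.ext hab.1 hab.2

theorem ball_finite (n : ℕ) : (ball X n).Finite := by
  refine ((finite_words X n).image (FreeSemigroup.lift (fun x : X => (x : S)))).subset ?_
  rintro s ⟨w, hw, rfl⟩
  exact ⟨w, hw, rfl⟩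

theorem ball_mono {m n : ℕ} (h : m ≤ n) : ball X m ⊆ ball X n := by
  rintro s ⟨w, hw, rfl⟩
  exact ⟨w, hw.trans h, rfl⟩

theorem growth_mono : Monotone (growth X) := fun _ n h =>
  Set.ncard_le_ncard (ball_mono X h) (ball_finite X n)

theorem split_word {α : Type*} (w : FreeSemigroup α) (m n : ℕ) (h : w.length ≤ m + n) :
    w.length ≤ m ∨ w.length ≤ n ∨
      ∃ u v : FreeSemigroup α, w = u * v ∧ u.length ≤ m ∧ v.length ≤ n := by
  obtain ⟨a, l⟩ := w
  simp only [FreeSemigroup.length] at h ⊢
  rcases Nat.eq_zero_or_pos m with hm | hm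
  · subst hm; right; left; omega
  by_cases h1 : l.length + 1 ≤ m
  · exact Or.inl h1
  right; right
  have h2 : m - 1 < l.length := by omega
  refine ⟨⟨a, l.take (m - 1)⟩, ⟨l[m - 1], l.drop (m - 1 + 1)⟩, ?_, ?_, ?_⟩
  · apply FreeSemigroup.ext
    · rfl
    · rw [FreeSemigroup.tail_mul]
      simp only
      rw [← List.drop_eq_getElem_cons h2, List.take_append_drop]
  · simp only [List.length_take]; omega
  · simp only [List.length_drop]; omega

theorem ball_add (m n : ℕ) : ball X (m + n) ⊆ ball X m ∪ ball X n ∪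
    (fun p : S × S => p.1 * p.2) '' (ball X m ×ˢ ball X n) := by
  rintro s ⟨w, hw, rfl⟩
  rcases split_word w m n hw with h | h | ⟨u, v, rfl, hu, hv⟩
  · exact Or.inl (Or.inl ⟨w, h, rfl⟩)
  · exact Or.inl (Or.inr ⟨w, h, rfl⟩)
  · exact Or.inr ⟨(_, _), ⟨⟨u, hu, rfl⟩, ⟨v, hv, rfl⟩⟩, (map_mul _ u v).symm⟩

theorem growth_add (m n : ℕ) :
    growth X (m + n) + 1 ≤ (growth X m + 1) * (growth X n + 1) := by
  have h1 : growth X (m + n) ≤ growth X m + growth X n + growth X m * growth X n := by
    rw [growth_eq]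
    refine (Set.ncard_le_ncard (ball_add X m n) ?_).trans ?_
    · exact ((ball_finite X m).union (ball_finite X n)).union
        (((ball_finite X m).prod (ball_finite X n)).image _)
    · refine (Set.ncard_union_le _ _).trans ?_
      refine add_le_add (Set.ncard_union_le _ _) ?_
      refine (Set.ncard_image_le ((ball_finite X m).prod (ball_finite X n))).trans ?_
      rw [Set.ncard_prod]
      exact le_refl _
  nlinarith

/-- growth functions are invariant under isomorphism -/
theorem growth_map {T : Type*} [Semigroup T] (e : S ≃* T) (n : ℕ) :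
    growth (X.map e.toEquiv.toEmbedding) n = growth X n := by
  rw [growth_eq, growth_eq]
  have : ball (X.map e.toEquiv.toEmbedding) n = e '' ball X n := by
    apply Set.Subset.antisymm
    · rintro t ⟨w, hw, rfl⟩
      let f : (X.map e.toEquiv.toEmbedding) → X := fun x => ⟨e.symm x, by
        obtain ⟨y, hy, hxy⟩ := Finset.mem_map.1 x.2
        have : e y = x := hxy
        rw [← this, e.symm_apply_apply]
        exact hy⟩
      refine ⟨e.symm (FreeSemigroup.lift
        (fun x : (X.map e.toEquiv.toEmbedding) => (x : T)) w), ⟨FreeSemigroup.map f w, ?_, ?_⟩, by simp⟩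
      · rw [FreeSemigroup.length_map]; exact hw
      · have : (FreeSemigroup.lift (fun x : X => (x : S))).comp (FreeSemigroup.map f) =
            (e.symm.toMulHom).comp (FreeSemigroup.lift
              (fun x : (X.map e.toEquiv.toEmbedding) => (x : T))) := by
          apply FreeSemigroup.hom_ext
          funext x
          rfl
        exact DFunLike.congr_fun this w
    · rintro _ ⟨s, ⟨w, hw, rfl⟩, rfl⟩
      let f : X → (X.map e.toEquiv.toEmbedding) := fun x => ⟨e x, by
        exact Finset.mem_map_of_mem e.toEquiv.toEmbedding x.2⟩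
      refine ⟨FreeSemigroup.map f w, ?_, ?_⟩
      · rw [FreeSemigroup.length_map]; exact hw
      · have : (FreeSemigroup.lift (fun x : (X.map e.toEquiv.toEmbedding) => (x : T))).comp
            (FreeSemigroup.map f) = (e.toMulHom).comp (FreeSemigroup.lift (fun x : X => (x : S))) := by
          apply FreeSemigroup.hom_ext
          funext x
          rfl
        exact DFunLike.congr_fun this w
  rw [this, Set.ncard_image_of_injective _ e.injective]

end Growth

instance (α : Type) [Countable α] : Countable (FreeSemigroup α) := by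
  have : Function.Injective (fun w : FreeSemigroup α => (w.head, w.tail)) := by
    intro a b hab
    simp only [Prod.mk.injEq] at hab
    exact FreeSemigroup.ext hab.1 hab.2
  exact this.countable

instance (k : ℕ) (R : Finset (FreeSemigroup (Fin k) × FreeSemigroup (Fin k))) :
    Countable (conGen (fun u v => (u, v) ∈ R)).Quotient :=
  (Quotient.mk_surjective (s := (conGen (fun u v => (u, v) ∈ R)).toSetoid)).countable

/-- the countable type of all finite presentations with a finite set of elements -/
abbrev Index : Type :=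
  Σ (k : ℕ) (R : Finset (FreeSemigroup (Fin k) × FreeSemigroup (Fin k))),
    Finset (conGen (fun u v => (u, v) ∈ R)).Quotient

theorem index_growth {S : Type*} [Semigroup S] (hS : FinitelyPresented S) (X : Finset S) :
    ∃ i : Index, growth i.2.2 = growth X := by
  obtain ⟨k, R, ⟨e⟩⟩ := hS
  exact ⟨⟨k, R, X.map e.toEquiv.toEmbedding⟩, funext fun n => growth_map X e n⟩

theorem sub_of_subexponential {f : ℕ → ℕ} (h : Subexponential f) : Q28.Osc.Sub f := by
  intro L
  rcases Nat.eq_zero_or_pos L with hL | hL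
  · subst hL; exact Eventually.of_forall fun n => by simpa using Nat.one_le_two_pow
  have hc : (1 : ℝ) < 2 ^ ((1 : ℝ) / L) := Real.one_lt_rpow (by norm_num) (by positivity)
  filter_upwards [h _ hc] with n hn
  have : ((f n : ℝ)) ^ L ≤ 2 ^ n := by
    calc ((f n : ℝ)) ^ L ≤ (((2 : ℝ) ^ ((1 : ℝ) / L)) ^ n) ^ L := by gcongr
      _ = (((2 : ℝ) ^ ((1 : ℝ) / L)) ^ L) ^ n := by rw [← pow_mul, ← pow_mul, mul_comm]
      _ = 2 ^ n := by
        rw [← Real.rpow_natCast ((2 : ℝ) ^ ((1 : ℝ) / L)) L, ← Real.rpow_mul (by norm_num)]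
        have : (1 : ℝ) / L * L = 1 := by field_simp
        rw [this, Real.rpow_one]
  exact_mod_cast this

theorem subexponential_of_sub {f : ℕ → ℕ} (h : Q28.Osc.Sub f) : Subexponential f := by
  intro c hc
  obtain ⟨L, hL⟩ := pow_unbounded_of_one_lt (2 : ℝ) hc
  have hL0 : L ≠ 0 := by
    rintro rfl
    norm_num at hL
  filter_upwards [h L] with n hn
  have h1 : ((f n : ℝ)) ^ L ≤ 2 ^ n := by exact_mod_cast hn
  have h2 : ((f n : ℝ)) ^ L ≤ (c ^ n) ^ L := by
    calc ((f n : ℝ)) ^ L ≤ 2 ^ n := h1
      _ ≤ (c ^ L) ^ n := by gcongr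
      _ = (c ^ n) ^ L := by rw [← pow_mul, ← pow_mul, mul_comm]
  exact le_of_pow_le_pow_left₀ hL0 (by positivity) h2

theorem not_dominated {f : ℕ → ℕ} (h : Q28.Osc.Sub f) : ¬ Dominated (fun n => 2 ^ n) f := by
  rintro ⟨C, hC, hd⟩
  have h1 := h (2 * C)
  obtain ⟨N, hN⟩ := eventually_atTop.1 h1
  -- take n large
  obtain ⟨c, hc⟩ : ∃ c, C ^ 2 < 2 ^ c := ⟨C ^ 2, Nat.lt_two_pow_self⟩
  set n := max N c
  have hn1 : N ≤ C * n := (le_max_left N c).trans (Nat.le_mul_of_pos_left _ hC)
  have h2 := hN (C * n) hn1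
  have h3 : f (C * n) ^ 2 ≤ 2 ^ n := by
    have : (f (C * n) ^ 2) ^ C ≤ (2 ^ n) ^ C := by
      rw [← pow_mul, ← pow_mul, mul_comm n C]; exact h2
    exact le_of_pow_le_pow_left₀ (by omega) (Nat.zero_le _) this
  have h4 : 2 ^ n ≤ C * f (C * n) := hd n
  have h5 : 2 ^ n * 2 ^ n ≤ C ^ 2 * 2 ^ n := by
    calc 2 ^ n * 2 ^ n ≤ (C * f (C * n)) * (C * f (C * n)) := Nat.mul_le_mul h4 h4
      _ = C ^ 2 * f (C * n) ^ 2 := by ring
      _ ≤ C ^ 2 * 2 ^ n := by gcongr
  have h6 : 2 ^ n ≤ C ^ 2 := Nat.le_of_mul_le_mul_right h5 (by positivity)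
  have h7 : 2 ^ c ≤ 2 ^ n := Nat.pow_le_pow_right (by norm_num) (le_max_right N c)
  omega

theorem dominated_two_pow {f : ℕ → ℕ} (h : Q28.Osc.Sub f) : Dominated f (fun n => 2 ^ n) := by
  obtain ⟨N, hN⟩ := eventually_atTop.1 (h 1)
  refine ⟨1 + ∑ i ∈ Finset.range N, f i, by omega, fun n => ?_⟩
  set C := 1 + ∑ i ∈ Finset.range N, f i
  have h2 : 1 ≤ C := by omega
  by_cases hn : N ≤ n
  · have h1 := hN n hn
    rw [pow_one] at h1
    calc f n ≤ 2 ^ n := h1
      _ ≤ 2 ^ (C * n) := Nat.pow_le_pow_right (by norm_num) (Nat.le_mul_of_pos_left _ h2)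
      _ ≤ C * 2 ^ (C * n) := Nat.le_mul_of_pos_left _ h2
  · have h1 : f n ≤ ∑ i ∈ Finset.range N, f i :=
      Finset.single_le_sum (f := f) (fun i _ => Nat.zero_le _) (Finset.mem_range.2 (by omega))
    calc f n ≤ C := by omega
      _ ≤ C * 2 ^ (C * n) := Nat.le_mul_of_pos_right _ (by positivity)

/-- **The negated form of Q1.** There is a strictly increasing subexponential `f₂` with
`n² ⪯ f₂ ⪯ 2^n` and `f₂ ≁ 2^n`, such that for every subexponential `f₁` (for instance the strictly
increasing function `n³`, which satisfies `n² ⪯ n³ ⪯ 2^n` and `n³ ≁ n²`), every finitely presented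
semigroup `S` and every finite `X ⊆ S` (in particular every finite generating set), the growth
function of `S` with respect to `X` is `≥ f₁` for all large `n` or `≤ f₂` for all large `n`. -/
theorem result :
    (StrictMono (fun n : ℕ => n ^ 3) ∧ Subexponential (fun n => n ^ 3) ∧
      Dominated (fun n => n ^ 2) (fun n => n ^ 3) ∧ Dominated (fun n => n ^ 3) (fun n => 2 ^ n) ∧
      ¬ Equivalent (fun n => n ^ 3) (fun n => n ^ 2)) ∧
    ∃ f₂ : ℕ → ℕ, (StrictMono f₂ ∧ Subexponential f₂ ∧
      Dominated (fun n => n ^ 2) f₂ ∧ Dominated f₂ (fun n => 2 ^ n) ∧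
      ¬ Equivalent f₂ (fun n => 2 ^ n)) ∧
      ∀ f₁ : ℕ → ℕ, Subexponential f₁ →
        ∀ (S : Type*) [Semigroup S], FinitelyPresented S → ∀ X : Finset S,
          (∀ᶠ n in atTop, f₁ n ≤ growth X n) ∨ (∀ᶠ n in atTop, growth X n ≤ f₂ n) := by
  classical
  have hcube : Subexponential (fun n : ℕ => n ^ 3) := by
    intro c hc
    have h2 : Tendsto (fun n : ℕ => (n : ℝ) ^ 3 / c ^ n) atTop (nhds 0) :=
      tendsto_pow_const_div_const_pow_of_one_lt 3 hc
    filter_upwards [h2.eventually (gt_mem_nhds (show (0 : ℝ) < 1 by norm_num))] with n hn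
    rw [div_lt_one (by positivity)] at hn
    push_cast
    exact hn.le
  refine ⟨⟨?_, hcube, ?_, dominated_two_pow (sub_of_subexponential hcube), ?_⟩, ?_⟩
  · exact fun a b h => Nat.pow_lt_pow_left h (by norm_num)
  · refine ⟨1, le_refl _, fun n => ?_⟩
    rcases Nat.eq_zero_or_pos n with h | h
    · subst h; norm_num
    · simp only [one_mul]
      exact Nat.pow_le_pow_right h (by norm_num)
  · rintro ⟨⟨C, hC, h⟩, -⟩
    have h1 := h (C ^ 3 + 1)
    simp only at h1
    have h2 : (C ^ 3 + 1) ^ 2 * (C ^ 3 + 1) ≤ (C ^ 3 + 1) ^ 2 * C ^ 3 := by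
      calc (C ^ 3 + 1) ^ 2 * (C ^ 3 + 1) = (C ^ 3 + 1) ^ 3 := by ring
        _ ≤ C * (C * (C ^ 3 + 1)) ^ 2 := h1
        _ = (C ^ 3 + 1) ^ 2 * C ^ 3 := by ring
    have h3 := Nat.le_of_mul_le_mul_left h2 (by positivity)
    omega
  -- the countable family of subexponential growth functions
  let F : Index → (ℕ → ℕ) := fun i => fun n => growth i.2.2 n + 1
  let F' : Index → (ℕ → ℕ) := fun i => if Q28.Osc.Sub (F i) then F i else fun _ => 1
  have : Nonempty Index := ⟨⟨0, ∅, ∅⟩⟩
  obtain ⟨enum, henum⟩ := exists_surjective_nat Index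
  have hone : Q28.Osc.Sub (fun _ => 1) := by
    intro L
    exact Eventually.of_forall fun n => by simpa using Nat.one_le_two_pow
  obtain ⟨f₂, hf1, hf2, hf3, hf4⟩ := Q28.Osc.exists_bound (fun i => F' (enum i))
    (fun i => by
      by_cases h : Q28.Osc.Sub (F (enum i))
      · simp only [F', if_pos h]
        exact fun a b hab => Nat.succ_le_succ (growth_mono _ hab)
      · simp only [F', if_neg h]
        exact fun _ _ _ => le_refl _)
    (fun i => by
      by_cases h : Q28.Osc.Sub (F (enum i))
      · simp only [F', if_pos h]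
        exact h
      · simp only [F', if_neg h]
        exact hone)
  refine ⟨f₂, ⟨hf1, subexponential_of_sub hf2, ?_, dominated_two_pow hf2, ?_⟩, ?_⟩
  · exact ⟨1, le_refl _, fun n => by simpa using (Nat.le_succ _).trans (hf3 n)⟩
  · exact fun h => not_dominated hf2 h.2
  · intro f₁ hf₁ S _ hS X
    obtain ⟨i, hi⟩ := index_growth hS X
    obtain ⟨j, hj⟩ := henum i
    rcases Q28.Osc.dichotomy (fun n => growth X n + 1)
      (fun a b hab => Nat.succ_le_succ (growth_mono X hab)) (fun n => Nat.le_add_left _ _)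
      (growth_add X) with ⟨K, hK, hexp⟩ | hsub
    · left
      -- exponential growth
      have h1 := sub_of_subexponential hf₁ (2 * K)
      filter_upwards [h1, eventually_ge_atTop (4 * K)] with n hn hn4
      by_contra hcon
      push Not at hcon
      -- growth n + 1 ≤ f₁ n
      have h2 : 2 ^ (n / K) ≤ growth X n + 1 := by
        refine (hexp (n / K)).trans ?_
        exact Nat.succ_le_succ (growth_mono X (Nat.mul_div_le n K))
      have h3 : 2 ^ (n / K) ≤ f₁ n := h2.trans hcon
      have h4 : (2 ^ (n / K)) ^ (2 * K) ≤ 2 ^ n := (Nat.pow_le_pow_left h3 _).trans hn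
      rw [← pow_mul] at h4
      have h5 : n / K * (2 * K) ≤ n := (Nat.pow_le_pow_iff_right (by norm_num)).1 h4
      have h6 : n < (n / K) * K + K := Nat.lt_div_mul_add hK
      have h7 : n / K * (2 * K) = 2 * ((n / K) * K) := by ring
      omega
    · right
      have h1 := hf4 j
      have h2 : F' (enum j) = F i := by
        rw [hj]
        have : Q28.Osc.Sub (F i) := by
          have : F i = fun n => growth X n + 1 := by
            funext n
            show growth i.2.2 n + 1 = _
            rw [hi]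
          rw [this]
          exact hsub
        simp only [F', if_pos this]
      rw [h2] at h1
      filter_upwards [h1] with n hn
      have : F i n = growth X n + 1 := by
        show growth i.2.2 n + 1 = _
        rw [hi]
      omega

end Pool.Agent.Results.MP_dd6e79_al.NoUniversalOscillation
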